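import Pool.Agent.W64.LcTAB.Chk

/-! The finite check TAB of the project LC (subtask 14517). -/

namespace Pool.Agent.W64.Lc.TAB

open Pool.Agent.W945.Pw Pool.Agent.W945.Lc Pool.Agent.W64.LcTAB

theorem tab_eq (l k : ℕ) (hk : k < 64) : tab l k = tb (row l) k := by
  unfold tab tb
  rw [if_pos hk]
  have h1 : Nat.shiftRight (row l) (Nat.mul 16 k) = row l / 2 ^ (16 * k) :=
    Nat.shiftRight_eq_div_pow (row l) (16 * k)
  have h2 : ∀ n : ℕ, Nat.land n 65535 = n % 2 ^ 16 := fun n =>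
    Nat.and_two_pow_sub_one_eq_mod n 16
  rw [h1, h2]

theorem loop_sound (f : ℕ → Bool) (n : ℕ)
    (h : (Nat.rec true (fun k ih => f k && ih) n : Bool) = true) : ∀ k < n, f k = true := by
  induction n with
  | zero => intro k hk; omega
  | succ n ih =>
    have h' : (f n && (Nat.rec true (fun k ih => f k && ih) n : Bool)) = true := h
    rw [Bool.and_eq_true] at h'
    intro k hk
    rcases Nat.lt_succ_iff_lt_or_eq.mp hk with hk | hk
    · exact ih h'.2 k hk
    · subst hk; exact h'.1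

theorem body_of_loop (r1 r2 r12 : ℕ) (h : loop1 r1 r2 r12 64 = true) (k1 k2 : ℕ) (h1 : k1 < 64)
    (h2 : k2 < 64) : body r1 r2 r12 k1 k2 = true := by
  have h3 : loop2 r1 r2 r12 k1 64 = true :=
    loop_sound (fun k => loop2 r1 r2 r12 k 64) 64 h k1 h1
  exact loop_sound (fun k => body r1 r2 r12 k1 k) 64 h3 k2 h2

/-- What the Boolean check says. -/
theorem spec (l1 l2 : ℕ) (h : loop1 (row l1) (row l2) (row (l1 + l2)) 64 = true) (k1 : ℕ)
    (h1 : k1 < 64) (k2 : ℕ) (h2 : k2 < 64) (ht1 : tab l1 k1 ≠ 0) (ht2 : tab l2 k2 ≠ 0) (k : ℕ)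
    (hk : k < 64) (hk1 : k1 * k2 / 64 ≤ k) (hk2 : 64 * k < (k1 + 1) * (k2 + 1)) :
    64 * tab l1 k1 + (k1 + 1) * tab l2 k2 ≤ 64 * tab (l1 + l2) k ∨
      64 * tab l2 k2 + (k2 + 1) * tab l1 k1 ≤ 64 * tab (l1 + l2) k := by
  have hb := body_of_loop _ _ _ h k1 k2 h1 h2
  rw [tab_eq _ _ h1] at ht1 ⊢
  rw [tab_eq _ _ h2] at ht2 ⊢
  rw [tab_eq _ _ hk]
  unfold body at hb
  have e1 : Nat.beq (tb (row l1) k1) 0 = false := by
    cases hh : Nat.beq (tb (row l1) k1) 0
    · rfl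
    · exact absurd (Nat.eq_of_beq_eq_true hh) ht1
  have e2 : Nat.beq (tb (row l2) k2) 0 = false := by
    cases hh : Nat.beq (tb (row l2) k2) 0
    · rfl
    · exact absurd (Nat.eq_of_beq_eq_true hh) ht2
  rw [e1, e2] at hb
  simp only [Bool.false_or, Bool.and_eq_true] at hb
  obtain ⟨hb0, hb1, hb2⟩ := hb
  have key : ck (row (l1 + l2)) (tb (row l1) k1) (tb (row l2) k2) k1 k2 k = true →
      64 * tb (row l1) k1 + (k1 + 1) * tb (row l2) k2 ≤ 64 * tb (row (l1 + l2)) k ∨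
      64 * tb (row l2) k2 + (k2 + 1) * tb (row l1) k1 ≤ 64 * tb (row (l1 + l2)) k := by
    intro hc
    unfold ck c1 at hc
    rw [Bool.or_eq_true, Bool.or_eq_true] at hc
    rcases hc with hc | hc | hc
    · have := Nat.le_of_ble_eq_true hc
      have h' : (k1 + 1) * (k2 + 1) ≤ 64 * k := this
      omega
    · exact Or.inl (Nat.le_of_ble_eq_true hc)
    · exact Or.inr (Nat.le_of_ble_eq_true hc)
  apply key
  have hk3 : k ≤ k1 * k2 / 64 + 2 := by
    have : 64 * k < k1 * k2 + k1 + k2 + 1 := by nlinarith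
    omega
  have hcases : k = k1 * k2 / 64 ∨ k = k1 * k2 / 64 + 1 ∨ k = k1 * k2 / 64 + 2 := by omega
  rcases hcases with e | e | e
  · rw [e]; exact hb0
  · rw [e]; exact hb1
  · rw [e]; exact hb2

theorem loops (l1 l2 : ℕ) (h1 : 1 ≤ l1) (h12 : l1 ≤ l2) (h2 : l2 < 13) :
    loop1 (row l1) (row l2) (row (l1 + l2)) 64 = true := by
  have h3 : l1 < 13 := lt_of_le_of_lt h12 h2
  interval_cases l1 <;> interval_cases l2
  · exact c_1_1
  · exact c_1_2
  · exact c_1_3
  · exact c_1_4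
  · exact c_1_5
  · exact c_1_6
  · exact c_1_7
  · exact c_1_8
  · exact c_1_9
  · exact c_1_10
  · exact c_1_11
  · exact c_1_12
  · exact c_2_2
  · exact c_2_3
  · exact c_2_4
  · exact c_2_5
  · exact c_2_6
  · exact c_2_7
  · exact c_2_8
  · exact c_2_9
  · exact c_2_10
  · exact c_2_11
  · exact c_2_12
  · exact c_3_3
  · exact c_3_4
  · exact c_3_5
  · exact c_3_6
  · exact c_3_7
  · exact c_3_8
  · exact c_3_9
  · exact c_3_10
  · exact c_3_11
  · exact c_3_12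
  · exact c_4_4
  · exact c_4_5
  · exact c_4_6
  · exact c_4_7
  · exact c_4_8
  · exact c_4_9
  · exact c_4_10
  · exact c_4_11
  · exact c_4_12
  · exact c_5_5
  · exact c_5_6
  · exact c_5_7
  · exact c_5_8
  · exact c_5_9
  · exact c_5_10
  · exact c_5_11
  · exact c_5_12
  · exact c_6_6
  · exact c_6_7
  · exact c_6_8
  · exact c_6_9
  · exact c_6_10
  · exact c_6_11
  · exact c_6_12
  · exact c_7_7
  · exact c_7_8
  · exact c_7_9
  · exact c_7_10
  · exact c_7_11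
  · exact c_7_12
  · exact c_8_8
  · exact c_8_9
  · exact c_8_10
  · exact c_8_11
  · exact c_8_12
  · exact c_9_9
  · exact c_9_10
  · exact c_9_11
  · exact c_9_12
  · exact c_10_10
  · exact c_10_11
  · exact c_10_12
  · exact c_11_11
  · exact c_11_12
  · exact c_12_12

theorem main : TAB.Stm := by
  refine ⟨by decide +kernel, by decide +kernel, ?_, by decide +kernel, by decide +kernel⟩
  intro l1 hl1 l2 hl2 g1 g2 k1 h1 k2 h2 ht1 ht2 k hk hk1 hk2
  rcases le_total l1 l2 with h | h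
  · exact spec l1 l2 (loops l1 l2 g1 h hl2) k1 h1 k2 h2 ht1 ht2 k hk hk1 hk2
  · have := spec l2 l1 (loops l2 l1 g2 h hl1) k2 h2 k1 h1 ht2 ht1 k hk
      (by rw [mul_comm k2 k1]; exact hk1) (by rw [mul_comm (k2 + 1) (k1 + 1)]; exact hk2)
    rw [add_comm l2 l1] at this
    exact this.symm

end Pool.Agent.W64.Lc.TAB
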